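import Pool.Agent.Lib.OG25.Final

namespace Pool.Agent.Lib.OG25

open Filter Real Pool.Agent.Lib.MP_90961b_co

noncomputable def bb : ℝ := exp (31 / 477 * log 2)

lemma bb_pow (m : ℕ) : bb ^ m = exp (m * (31 / 477 * log 2)) := by
  rw [bb, ← exp_nat_mul]

lemma bb_par : Par bb := by
  have hl : 0 < log 2 := log_pos (by norm_num)
  have h1 : 1 ≤ bb := one_le_exp (by positivity)
  have h0 : 0 ≤ bb := by linarith
  have e : (bb ^ 9) ^ 53 = 2 ^ 31 := by
    rw [← pow_mul, bb_pow]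
    have : ((9 * 53 : ℕ) : ℝ) * (31 / 477 * log 2) = (31 : ℕ) * log 2 := by push_cast; ring
    rw [this, exp_nat_mul, exp_log (by norm_num)]
  have h9 : bb ^ 9 ≤ 29999 / 20000 := by
    apply le_of_pow_le_pow_left₀ (n := 53) (by norm_num) (by norm_num)
    rw [e]
    norm_num
  refine ⟨h1, h9, ?_⟩
  apply le_of_pow_le_pow_left₀ (n := 9) (by norm_num) (by norm_num)
  calc (bb ^ 13) ^ 9 = (bb ^ 9) ^ 13 := by ring
    _ ≤ (29999 / 20000) ^ 13 := pow_le_pow_left₀ (by positivity) h9 13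
    _ ≤ _ := by norm_num

lemma key_iq (L k c' e M l lg : ℝ) (hL1 : 30000 ≤ L) (k1 : 321 / 100 * L ≤ k)
    (k3 : k ≤ 5 * L) (e1 : 2 * c' = k * (k - 1)) (e2 : 9 * (M * M) ≤ 34 * e)
    (m2 : 1703 / 1000 * L < M + 1)
    (hl : 0.69 < l) (hlg0 : 0 ≤ lg) (hlg : lg ≤ 1 / 100000000 * L) :
    l + (k * l + k * lg) < -(k * (L * l)) + (9 * c' + 4 * e) * (31 / 477 * l) := by
  have a0 : 17029 / 10000 * L ≤ M := by linarith
  have a1 : (17029 / 10000 * L) * (17029 / 10000 * L) ≤ M * M :=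
    mul_self_le_mul_self (by linarith) a0
  have a2 : 31 / 106 * ((321 / 100) ^ 2 * L ^ 2) - 321 / 100 * L ^ 2 ≤
      31 / 106 * k ^ 2 - k * L := by
    have : 0 ≤ (k - 321 / 100 * L) * (31 / 106 * (k + 321 / 100 * L) - L) :=
      mul_nonneg (by linarith) (by linarith)
    nlinarith
  have a3 : 3 / 1000 * L ^ 2 - 31 / 106 * k ≤ (9 * c' + 4 * e) * (31 / 477) - k * L := by
    nlinarith
  have a4 : k * lg ≤ 5 * L * (1 / 100000000 * L) := by gcongr
  have b0 : 0 ≤ L ^ 2 := by positivity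
  have a6 : 1 / 1000 * L ^ 2 * 0.69 ≤ 1 / 1000 * L ^ 2 * l := by gcongr
  have a7 : 1 + 2 * k < 2 / 1000 * L ^ 2 := by
    have : 30000 * L ≤ L * L := by gcongr
    nlinarith
  have a8 : (1 + k + 1 / 1000 * L ^ 2) * l < ((9 * c' + 4 * e) * (31 / 477) - k * L) * l := by
    apply mul_lt_mul_of_pos_right _ (by linarith)
    linarith
  nlinarith

theorem breaker_par (L : ℝ) (n k d W M : ℕ) (hn : n % 4 = 0 ∨ n % 4 = 1) (hL1 : 30000 ≤ L)
    (hlog : log (6 * L) ≤ 1 / 100000000 * L) (hnL : (n : ℝ) = exp (L * log 2))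
    (k1 : 321 / 100 * L ≤ k) (k3 : (k : ℝ) ≤ 5 * L) (d1 : (d : ℝ) ≤ 1535 / 100 * L)
    (d2 : 1535 / 100 * L < d + 1) (w1 : 1 / 1000 * L ≤ W) (w2 : (W : ℝ) < 1 / 1000 * L + 1)
    (m1 : (M : ℝ) ≤ 1703 / 1000 * L) (m2 : 1703 / 1000 * L < M + 1)
    (T : Fin k → Fin k → Prop) (hT : IsTournament T) :
    BreakerWins T (∅ : Finset (Arc n)) true := by
  have hl2 : (0.69 : ℝ) < log 2 := by have := log_two_gt_d9; linarith
  have hL0 : 0 < L := by linarith
  have k0 : (0 : ℝ) < k := by linarith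
  have h6 : 6 * L = exp (log (6 * L)) := (exp_log (by positivity)).symm
  have hW : (W : ℝ) ≤ k := by linarith
  have a3 : exp (3 * log (6 * L)) = (6 * L) ^ 3 := by
    conv_rhs => rw [h6, ← exp_nat_mul]
    norm_num
  refine breaker_fin hn hT bb_par d W W M ?_ (by exact_mod_cast hW) ?_ ?_ ?_ ?_
  · rw [le_div_iff₀ (by positivity), bb_pow, hnL, one_div, ← exp_neg, ← exp_add]
    have a1 : 20 * (k : ℝ) * 20000 ≤ (6 * L) ^ 3 := by
      have b2 : 30000 * 30000 ≤ L * L := mul_self_le_mul_self (by norm_num) hL1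
      have b3 : 30000 * 30000 * L ≤ L * L * L := by gcongr
      nlinarith
    calc _ = (20 * (k : ℝ) * 20000) * exp (-(L * log 2) + d * (31 / 477 * log 2)) := by ring
      _ ≤ exp (3 * log (6 * L)) * exp (-(L * log 2) + d * (31 / 477 * log 2)) := by
          rw [a3]; gcongr
      _ ≤ 1 := by
          rw [← exp_add, exp_le_one_iff]
          have b1 : (d : ℝ) * (31 / 477 * log 2) ≤ 1535 / 100 * L * (31 / 477 * log 2) := by
            gcongr
          have b2 : L * 0.69 ≤ L * log 2 := by gcongr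
          linarith
  · have b0 : 0 ≤ 1 - (W : ℝ) / k := by rw [sub_nonneg, div_le_one k0]; exact hW
    have a1 : (1 - (W : ℝ) / k) ^ W ≤ exp (-(L / 5000000)) := by
      calc _ ≤ exp (-((W : ℝ) / k)) ^ W := by
            apply pow_le_pow_left₀ b0
            have := add_one_le_exp (-((W : ℝ) / k))
            linarith
        _ = exp (-((W : ℝ) * W / k)) := by rw [← exp_nat_mul]; congr 1; ring
        _ ≤ _ := by
            rw [exp_le_exp, neg_le_neg_iff, le_div_iff₀ k0]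
            have b1 : (1 / 1000 * L) * (1 / 1000 * L) ≤ (W : ℝ) * W := by gcongr
            have b2 : L / 5000000 * k ≤ L / 5000000 * (5 * L) := by gcongr
            linarith
    have a2 : (k : ℝ) * (k + 1) ^ 2 ≤ exp (3 * log (6 * L)) := by
      rw [a3]
      calc (k : ℝ) * (k + 1) ^ 2 ≤ (6 * L) * (6 * L) ^ 2 := by gcongr <;> linarith
        _ = _ := by ring
    calc _ ≤ exp (3 * log (6 * L)) * exp (-(L / 5000000)) :=
          mul_le_mul a2 a1 (pow_nonneg b0 _) (by positivity)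
      _ < 1 := by
          rw [← exp_add, exp_lt_one_iff]
          linarith
  · have : 9 * (M : ℝ) + 9 * W + 13 * W ≤ d := by linarith
    exact_mod_cast this
  · have : (d : ℝ) < 9 * k := by linarith
    exact_mod_cast this
  · intro c' e h1 h2
    have k5 : 1 ≤ k := by
      have : (1 : ℝ) ≤ k := by linarith
      exact_mod_cast this
    have e1 : 2 * (c' : ℝ) = k * (k - 1) := by
      have := congrArg (Nat.cast (R := ℝ)) h1
      push_cast [Nat.cast_sub k5] at this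
      exact this
    have e2 : 9 * ((M : ℝ) * M) ≤ 34 * e := by exact_mod_cast h2
    have e4 : ((k : ℝ) + 1) ^ k ≤ exp (k * log (6 * L)) := by
      rw [exp_nat_mul, ← h6]
      exact pow_le_pow_left₀ (by positivity) (by linarith) k
    have e5 : (2 : ℝ) ^ k = exp (k * log 2) := by rw [exp_nat_mul, exp_log (by norm_num)]
    have e6 : (1 / (n : ℝ)) ^ k = exp (-(k * (L * log 2))) := by
      rw [hnL, one_div, ← exp_neg, ← exp_nat_mul]; congr 1; ring
    have key : log 2 + (k * log 2 + k * log (6 * L)) <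
        -(k * (L * log 2)) + ((9 * c' + 4 * e : ℕ) : ℝ) * (31 / 477 * log 2) := by
      push_cast
      exact key_iq L k c' e M _ _ hL1 k1 k3 e1 e2 m2 hl2 (log_nonneg (by linarith)) hlog
    have key2 := exp_lt_exp.2 key
    rw [exp_add, exp_add, exp_add, exp_log (by norm_num : (0 : ℝ) < 2), ← e5, ← e6,
      ← bb_pow] at key2
    have p1 : (0 : ℝ) < 2 ^ k := by positivity
    calc 2 * (2 ^ k * ((k : ℝ) + 1) ^ k) ≤ 2 * (2 ^ k * exp (k * log (6 * L))) := by gcongr
      _ < _ := key2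

theorem breaker_ex : ∀ᶠ n : ℕ in atTop, (n % 4 = 0 ∨ n % 4 = 1) →
    ∀ T : Fin ⌈321 / 100 * logb 2 n⌉₊ → Fin ⌈321 / 100 * logb 2 n⌉₊ → Prop, IsTournament T →
      BreakerWins T (∅ : Finset (Arc n)) true := by
  have hT : Tendsto (fun n : ℕ => logb 2 (n : ℝ)) atTop atTop :=
    (tendsto_logb_atTop (by norm_num)).comp tendsto_natCast_atTop_atTop
  filter_upwards [hT.eventually (ev_log (1 / 100000000) (by positivity)),
    hT.eventually (eventually_ge_atTop 30000), eventually_ge_atTop 1] with n hlog hL hn h4 T hTT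
  have hn0 : (0 : ℝ) < n := by exact_mod_cast hn
  have hl : 0 < log 2 := log_pos (by norm_num)
  refine breaker_par (logb 2 n) n _ ⌊1535 / 100 * logb 2 n⌋₊ ⌈1 / 1000 * logb 2 n⌉₊
    ⌊1703 / 1000 * logb 2 n⌋₊ h4 hL hlog ?_ (Nat.le_ceil _) ?_
    (Nat.floor_le (by linarith)) (Nat.lt_floor_add_one _)
    (Nat.le_ceil _) (Nat.ceil_lt_add_one (by linarith))
    (Nat.floor_le (by linarith)) (Nat.lt_floor_add_one _) T hTT
  · rw [logb, div_mul_cancel₀ _ hl.ne', exp_log hn0]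
  · have h1 : (⌈321 / 100 * logb 2 n⌉₊ : ℝ) < 321 / 100 * logb 2 n + 1 :=
      Nat.ceil_lt_add_one (by linarith)
    linarith

theorem breaker_parity :
    ∃ N : ℕ, ∀ n : ℕ, N ≤ n → (n % 4 = 0 ∨ n % 4 = 1) → ∀ k : ℕ, 321 / 100 * logb 2 n ≤ k →
      ∀ T : Fin k → Fin k → Prop, IsTournament T →
        BreakerWins T (∅ : Finset (Fin n × Fin n)) true := by
  obtain ⟨N, hN⟩ := eventually_atTop.1 breaker_ex
  refine ⟨N, fun n hn h4 k hk T hT => ?_⟩
  have hle : ⌈321 / 100 * logb 2 n⌉₊ ≤ k := Nat.ceil_le.2 hk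
  have := hN n hn h4 (fun a b => T (Fin.castLE hle a) (Fin.castLE hle b))
    ⟨fun a => hT.1 _, fun a b hab => hT.2 _ _ fun e => hab (Fin.castLE_injective hle e)⟩
  refine this.mono ?_
  rintro D ⟨φ, hφ, h⟩
  exact ⟨fun a => φ (Fin.castLE hle a), hφ.comp (Fin.castLE_injective hle), fun a b e => h _ _ e⟩

end Pool.Agent.Lib.OG25
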