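import Pool.Agent.Lib.OG25.Game

namespace Pool.Agent.Lib.OG25

open Classical Finset Pool.Agent.Lib.MP_90961b_co

variable {k n : ℕ}

def Wn (d W : ℕ) (φ : Fin k → Fin n) (ρ : Fin n → Option (Fin k)) (R : Finset (Fin k))
    (h : List (Arc n)) (l : Fin k → Option (Fin k)) (y : Fin k) : Prop :=
  ∃ h1, h1 <:+ h ∧ Disjoint (nb φ h y \ nb φ h1 y) R ∧
    ac (ρ, l) h (φ y) + 13 * W ≤ d + 13 * (nb φ h y \ nb φ h1 y).card

structure Iv (β : ℝ) (d M : ℕ) (φ : Fin k → Fin n)
    (ρ : Fin n → Option (Fin k)) (R : Finset (Fin k)) (h : List (Arc n))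
    (l : Fin k → Option (Fin k)) : Prop where
  hR : ∀ b, l b = none ↔ b ∈ R
  hlab : ∀ b z, l b = some z → z = b ∨ (z ∈ R ∧ played h (φ b) (φ z))
  hdeg : ∀ y, 9 * (nb φ h y).card ≤ ac (ρ, l) h (φ y)
  hcount : ∃ c e : ℕ, 2 * c = ∑ y, (nb φ h y).card ∧
    (1 / (n : ℝ)) ^ k * β ^ (9 * c + 4 * e) ≤ wg β d (ρ, l) h ∧
    18 * ∑ i ∈ range (Hi R l).card, (M - i) + 2 * ∑ y ∈ Lw l, ac (ρ, l) h (φ y) +
      9 * ∑ y ∈ Lw l, (nb φ h y ∩ Lw l).card ≤ 34 * e + 18 * ∑ y ∈ Lw l, (nb φ h y).card

section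
variable {β : ℝ} {d W M : ℕ} {φ : Fin k → Fin n}
  {ρ : Fin n → Option (Fin k)} {R : Finset (Fin k)}

lemma stA (hβ : 1 ≤ β) (hφ : Function.Injective φ)
    (hρ : ∀ u b, ρ u = some b ↔ φ b = u) {l : Fin k → Option (Fin k)} {h : List (Arc n)}
    {a : Arc n} (hp : Proper (a :: h))
    (hhit : ∀ h1, h1 <:+ h → ∀ y, Disjoint (nb φ h y \ nb φ h1 y) R →
      (nb φ h y \ nb φ h1 y).card < W)
    (I : Iv β d M φ ρ R h l) (hw : ∀ y, l y = some y → Wn d W φ ρ R h l y) :
    Iv β d M φ ρ R (a :: h) l ∧ ∀ y, l y = some y → Wn d W φ ρ R (a :: h) l y ∨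
      ∃ z ∈ R, (a = (φ y, φ z) ∨ a = (φ z, φ y)) ∧ d < ac (ρ, l) (a :: h) (φ y) + 13 * W := by
  have hlab' : ∀ b z, l b = some z → z = b ∨ (z ∈ R ∧ played (a :: h) (φ b) (φ z)) :=
    fun b z hz => (I.hlab b z hz).imp id fun e => ⟨e.1, played_cons a e.2⟩
  have hacc2 : ∀ u, ac (ρ, l) (a :: h) u ≤ ac (ρ, l) h u + 13 := by
    intro u
    simp only [ac]
    split_ifs <;> omega
  have hval : vld d (ρ, l) (a :: h) := by
    intro u hu
    obtain ⟨y, rfl⟩ := low_exists hρ hu
    obtain ⟨h1, s1, s2, s3⟩ := hw y ((low_iff hρ hp hlab' y).1 hu)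
    have := hhit h1 s1 y s2
    have := hacc2 (φ y)
    omega
  obtain ⟨c, e, c1, c2, c3⟩ := I.hcount
  by_cases hi : inside (ρ, l) a
  swap
  · have e1 := nb_cons_out hρ hi h
    have e2 : ∀ u, ac (ρ, l) (a :: h) u = ac (ρ, l) h u := by
      intro u; simp [ac, hi]
    have e3 : wg β d (ρ, l) (a :: h) = wg β d (ρ, l) h := by
      rw [wg, if_pos hval]; simp [mu, hi]
    refine ⟨⟨I.hR, hlab', fun y => by rw [e1, e2]; exact I.hdeg y, c, e, ?_, ?_, ?_⟩, ?_⟩
    · simp only [e1]; exact c1
    · rw [e3]; exact c2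
    · simp only [e1, e2]; exact c3
    · intro y hy
      obtain ⟨h1, s1, s2, s3⟩ := hw y hy
      exact Or.inl ⟨h1, s1.trans (List.suffix_cons a h), by rw [e1]; exact s2,
        by rw [e1, e2]; exact s3⟩
  obtain ⟨b, hb⟩ := Option.ne_none_iff_exists'.1 hi.1
  obtain ⟨b', hb'⟩ := Option.ne_none_iff_exists'.1 hi.2
  obtain ⟨a1, a2⟩ := a
  simp only at hb hb'
  obtain rfl := (hρ _ _).1 hb
  obtain rfl := (hρ _ _).1 hb'
  obtain ⟨l1, l2, l3⟩ := hp.2
  simp only [List.mem_toFinset] at l1 l2 l3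
  have hbc : b ≠ b' := fun e => l1 (by rw [e])
  have n1 : b' ∉ nb φ h b := by simp [nb, played, l2, l3]
  have n2 : b ∉ nb φ h b' := by simp [nb, played, l2, l3]
  have hE : early (ρ, l) h (φ b, φ b') ↔ b ∈ Lw l ∧ b' ∈ Lw l := by
    unfold early
    simp only [low_iff hρ hp.1 I.hlab, Lw, mem_filter, mem_univ, true_and]
  set t : ℕ := if b ∈ Lw l ∧ b' ∈ Lw l then 13 else 9 with ht
  have eacc : ∀ y, ac (ρ, l) ((φ b, φ b') :: h) (φ y) =
      ac (ρ, l) h (φ y) + ((if y = b then t else 0) + (if y = b' then t else 0)) := by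
    intro y
    simp only [ac, hi, and_true, hφ.eq_iff, hE, ← ht]
    by_cases q1 : y = b
    · subst q1; simp [hbc]
    · by_cases q2 : y = b'
      · subst q2; simp [q1]
      · simp [q1, q2]
  have enb : ∀ y, (nb φ ((φ b, φ b') :: h) y).card =
      (nb φ h y).card + ((if y = b then 1 else 0) + (if y = b' then 1 else 0)) := by
    intro y
    rw [nb_cons_in hφ hbc]
    by_cases q1 : y = b
    · subst q1; simp [hbc, n1]
    · by_cases q2 : y = b'
      · subst q2; simp [q1, n2]
      · simp [q1, q2]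
  have epp : ∀ y, (nb φ ((φ b, φ b') :: h) y ∩ Lw l).card = (nb φ h y ∩ Lw l).card +
      ((if y = b then (if b' ∈ Lw l then 1 else 0) else 0) +
        (if y = b' then (if b ∈ Lw l then 1 else 0) else 0)) := by
    intro y
    rw [nb_cons_in hφ hbc]
    by_cases q1 : y = b
    · subst q1
      by_cases q3 : b' ∈ Lw l
      · simp [hbc, n1, q3, insert_inter_of_mem q3]
      · simp [hbc, q3, insert_inter_of_notMem q3]
    · by_cases q2 : y = b'
      · subst q2
        by_cases q3 : b ∈ Lw l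
        · simp [q1, n2, q3, insert_inter_of_mem q3]
        · simp [q1, q3, insert_inter_of_notMem q3]
      · simp [q1, q2]
  have ht1 : 9 ≤ t := by rw [ht]; split_ifs <;> omega
  have ht2 : t ≤ 13 := by rw [ht]; split_ifs <;> omega
  have ewt : wg β d (ρ, l) ((φ b, φ b') :: h) =
      wg β d (ρ, l) h * (if b ∈ Lw l ∧ b' ∈ Lw l then β ^ 13 else β ^ 9) := by
    rw [wg, if_pos hval]; simp only [mu, hi, if_true, hE]
  refine ⟨⟨I.hR, hlab', fun y => ?_, ?_⟩, ?_⟩
  · rw [eacc, enb]
    have := I.hdeg y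
    split_ifs <;> omega
  · have hβ0 : (0 : ℝ) ≤ β := by linarith
    by_cases hL : b ∈ Lw l ∧ b' ∈ Lw l
    · refine ⟨c + 1, e + 1, ?_, ?_, ?_⟩
      · simp only [enb, sum_add_distrib (f := fun y => (nb φ h y).card), sum_two]
        simp; omega
      · rw [ewt, if_pos hL]
        calc _ = (1 / (n : ℝ)) ^ k * β ^ (9 * c + 4 * e) * β ^ 13 := by ring
          _ ≤ _ := mul_le_mul_of_nonneg_right c2 (by positivity)
      · simp only [enb, eacc, epp, sum_add_distrib (f := fun y => (nb φ h y).card),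
          sum_add_distrib (f := fun y => ac (ρ, l) h (φ y)),
          sum_add_distrib (f := fun y => (nb φ h y ∩ Lw l).card), sum_two, hL.1, hL.2, if_true]
        have : t = 13 := by rw [ht, if_pos hL]
        omega
    · refine ⟨c + 1, e, ?_, ?_, ?_⟩
      · simp only [enb, sum_add_distrib (f := fun y => (nb φ h y).card), sum_two]
        simp; omega
      · rw [ewt, if_neg hL]
        calc _ = (1 / (n : ℝ)) ^ k * β ^ (9 * c + 4 * e) * β ^ 9 := by ring
          _ ≤ _ := mul_le_mul_of_nonneg_right c2 (by positivity)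
      · simp only [enb, eacc, epp, sum_add_distrib (f := fun y => (nb φ h y).card),
          sum_add_distrib (f := fun y => ac (ρ, l) h (φ y)),
          sum_add_distrib (f := fun y => (nb φ h y ∩ Lw l).card), sum_two]
        have : t = 9 := by rw [ht, if_neg hL]
        by_cases q1 : b ∈ Lw l <;> by_cases q2 : b' ∈ Lw l
        · exact absurd ⟨q1, q2⟩ hL
        all_goals simp only [q1, q2, if_true, if_false]; omega
  · intro y hy
    obtain ⟨h1, s1, s2, s3⟩ := hw y hy
    have aux : ∀ z, nb φ ((φ b, φ b') :: h) y = insert z (nb φ h y) → z ∉ nb φ h y →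
        ((φ b, φ b') = (φ y, φ z) ∨ (φ b, φ b') = (φ z, φ y)) →
        Wn d W φ ρ R ((φ b, φ b') :: h) l y ∨
        ∃ z ∈ R, ((φ b, φ b') = (φ y, φ z) ∨ (φ b, φ b') = (φ z, φ y)) ∧
          d < ac (ρ, l) ((φ b, φ b') :: h) (φ y) + 13 * W := by
      intro z ez nz hz
      by_cases hzR : z ∈ R
      · by_cases hlt : d < ac (ρ, l) ((φ b, φ b') :: h) (φ y) + 13 * W
        · exact Or.inr ⟨z, hzR, hz, hlt⟩
        · exact Or.inl ⟨_, List.suffix_rfl, by simp, by simp; omega⟩
      · left
        have nz1 : z ∉ nb φ h1 y := fun e => nz (nb_mono φ s1 y e)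
        have e5 : nb φ ((φ b, φ b') :: h) y \ nb φ h1 y = insert z (nb φ h y \ nb φ h1 y) := by
          rw [ez, insert_sdiff_of_notMem _ nz1]
        refine ⟨h1, s1.trans (List.suffix_cons _ h), ?_, ?_⟩
        · rw [e5, disjoint_insert_left]; exact ⟨hzR, s2⟩
        · rw [e5, card_insert_of_notMem (fun e => nz (mem_sdiff.1 e).1)]
          have := hacc2 (φ y)
          omega
    by_cases q1 : y = b
    · subst q1
      exact aux b' (by rw [nb_cons_in hφ hbc, if_pos rfl]) n1 (Or.inl rfl)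
    · by_cases q2 : y = b'
      · subst q2
        exact aux b (by rw [nb_cons_in hφ hbc, if_neg q1, if_pos rfl]) n2 (Or.inr rfl)
      · left
        have e5 : nb φ ((φ b, φ b') :: h) y = nb φ h y := by
          rw [nb_cons_in hφ hbc, if_neg q1, if_neg q2]
        refine ⟨h1, s1.trans (List.suffix_cons _ h), by rw [e5]; exact s2, ?_⟩
        rw [e5, eacc, if_neg q1, if_neg q2]
        exact s3

lemma stB (hβ : 1 ≤ β) (hφ : Function.Injective φ)
    (hρ : ∀ u b, ρ u = some b ↔ φ b = u) {l : Fin k → Option (Fin k)} {h : List (Arc n)}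
    {a : Arc n} (hp : Proper (a :: h)) {r : ℕ} (hr : R.card ≤ r) (hM : 9 * M + 9 * r + 13 * W ≤ d)
    (I : Iv β d M φ ρ R (a :: h) l) {y z : Fin k} (hy : l y = some y) (hz : z ∈ R)
    (ha : a = (φ y, φ z) ∨ a = (φ z, φ y)) (hd : d < ac (ρ, l) (a :: h) (φ y) + 13 * W) :
    Iv β d M φ ρ R (a :: h) (Function.update l y (some z)) ∧
      ∀ u, ac (ρ, Function.update l y (some z)) (a :: h) u = ac (ρ, l) (a :: h) u := by
  set l' := Function.update l y (some z) with hl'
  have hyR : y ∉ R := fun e => by rw [(I.hR y).2 e] at hy; simp at hy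
  have hzy : z ≠ y := fun e => hyR (e ▸ hz)
  have hR' : ∀ b, l' b = none ↔ b ∈ R := by
    intro b
    by_cases q : b = y
    · subst q; simp [hl', hyR]
    · simp only [hl', Function.update_of_ne q]; exact I.hR b
  have hpl : played (a :: h) (φ y) (φ z) := by
    unfold played
    rcases ha with rfl | rfl <;> simp
  have hlab' : ∀ b w, l' b = some w → w = b ∨ (w ∈ R ∧ played (a :: h) (φ b) (φ w)) := by
    intro b w hw
    by_cases q : b = y
    · subst q
      simp only [hl', Function.update_self, Option.some.injEq] at hw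
      subst hw
      exact Or.inr ⟨hz, hpl⟩
    · simp only [hl', Function.update_of_ne q] at hw
      exact I.hlab b w hw
  have hnp : ¬ played h (φ y) (φ z) := by
    obtain ⟨l1, l2, l3⟩ := hp.2
    simp only [List.mem_toFinset] at l2 l3
    unfold played
    rcases ha with rfl | rfl <;> simp only at l2 l3 <;> tauto
  have hlow : ∀ h', h' <:+ h → ∀ u, low (ρ, l) h' u ↔ low (ρ, l') h' u := by
    intro h' hs u
    by_cases q : u = φ y
    · subst q
      have hp' : Proper h' := hp.1.suffix hs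
      refine iff_of_true ⟨y, y, (hρ _ _).2 rfl, hy, ?_⟩ ⟨y, z, (hρ _ _).2 rfl, by simp [hl'], ?_⟩
      · rintro ⟨w, hw, h3⟩
        rw [← (hρ _ _).1 hw] at h3
        exact hp'.noloop _ h3
      · rintro ⟨w, hw, h3⟩
        rw [← (hρ _ _).1 hw] at h3
        exact hnp (h3.imp (fun e => hs.subset e) (fun e => hs.subset e))
    · unfold low
      refine exists_congr fun b => exists_congr fun w => and_congr_right fun hb => ?_
      have : b ≠ y := by
        rintro rfl
        exact q ((hρ _ _).1 hb).symm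
      simp only [hl', Function.update_of_ne this]
  have g1 : Good (ρ, l) := good_of hρ I.hR I.hlab
  have g2 : Good (ρ, l') := good_of hρ hR' hlab'
  obtain ⟨ra, rw0⟩ := relab (β := β) (d := d) (o := (ρ, l)) (o' := (ρ, l')) rfl g1 g2 h hlow
  have l0 := hlow h List.suffix_rfl
  have ra' : ∀ u, ac (ρ, l') (a :: h) u = ac (ρ, l) (a :: h) u := fun u =>
    (ac_cons_congr (o := (ρ, l)) (o' := (ρ, l')) rfl l0 ra a u).symm
  have hLw : Lw l' = (Lw l).erase y := by
    ext b
    simp only [Lw, mem_filter, mem_univ, true_and, mem_erase]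
    by_cases q : b = y
    · subst q; simp [hl', hzy]
    · simp [hl', Function.update_of_ne q, q]
  have hHi : Hi R l' = insert y (Hi R l) := by
    ext b
    simp only [Hi, mem_filter, mem_univ, true_and, mem_insert]
    by_cases q : b = y
    · subst q; simp [hl', hzy, hyR]
    · simp [hl', Function.update_of_ne q, q]
  have hyH : y ∉ Hi R l := by simp [Hi, hy]
  have hyL : y ∈ Lw l := by simp [Lw, hy]
  refine ⟨⟨hR', hlab', fun u => by rw [ra']; exact I.hdeg u, ?_⟩, ra'⟩
  obtain ⟨c, e, c1, c2, c3⟩ := I.hcount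
  refine ⟨c, e, c1, c2.trans ?_, ?_⟩
  · rw [wg, wg]
    by_cases hv : vld d (ρ, l) (a :: h)
    · have hv' : vld d (ρ, l') (a :: h) := by
        intro u hu
        obtain ⟨b, rfl⟩ := low_exists hρ hu
        rw [ra']
        apply hv
        rw [low_iff hρ hp hlab'] at hu
        rw [low_iff hρ hp I.hlab]
        have : b ∈ Lw l' := by simpa [Lw] using hu
        rw [hLw] at this
        simpa [Lw] using mem_of_mem_erase this
      rw [if_pos hv, if_pos hv', rw0, mu_congr (o := (ρ, l)) (o' := (ρ, l')) rfl l0]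
    · rw [if_neg hv]
      split_ifs
      · exact mul_nonneg (wg_nonneg hβ _ _) (mu_nonneg hβ _ _ _)
      · exact le_rfl
  · rw [hHi, card_insert_of_notMem hyH, sum_range_succ, hLw]
    simp only [ra']
    rw [← add_sum_erase _ _ hyL, ← add_sum_erase _ _ hyL, ← add_sum_erase _ _ hyL] at c3
    have hyy : y ∉ nb φ (a :: h) y := by
      simp only [nb, mem_filter, mem_univ, true_and]; exact hp.noloop _
    have p1 : ∑ u ∈ (Lw l).erase y, (nb φ (a :: h) u ∩ Lw l).card =
        ∑ u ∈ (Lw l).erase y, (nb φ (a :: h) u ∩ (Lw l).erase y).card +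
          (nb φ (a :: h) y ∩ Lw l).card := by
      have q1 : (nb φ (a :: h) y ∩ Lw l).card =
          ∑ u ∈ (Lw l).erase y, if y ∈ nb φ (a :: h) u then 1 else 0 := by
        rw [← card_filter]
        congr 1
        ext u
        simp only [mem_inter, mem_filter, mem_erase]
        constructor
        · rintro ⟨e1, e2⟩
          refine ⟨⟨fun e => hyy (e ▸ e1), e2⟩, ?_⟩
          simp only [nb, mem_filter, mem_univ, true_and] at e1 ⊢
          exact played_symm e1
        · rintro ⟨⟨-, e2⟩, e1⟩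
          refine ⟨?_, e2⟩
          simp only [nb, mem_filter, mem_univ, true_and] at e1 ⊢
          exact played_symm e1
      rw [q1, ← sum_add_distrib]
      refine sum_congr rfl fun u _ => ?_
      rw [inter_erase]
      split_ifs with q2
      · rw [card_erase_add_one (mem_inter.2 ⟨q2, hyL⟩)]
      · rw [erase_eq_of_notMem (fun e => q2 (mem_inter.1 e).1), add_zero]
    have p2 : (nb φ (a :: h) y).card ≤ (nb φ (a :: h) y ∩ Lw l).card + r + (Hi R l).card := by
      have : nb φ (a :: h) y ⊆ (nb φ (a :: h) y ∩ Lw l) ∪ R ∪ Hi R l := by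
        intro u hu
        simp only [mem_union, mem_inter, Lw, Hi, mem_filter, mem_univ, true_and]
        tauto
      have t1 := card_le_card this
      have t2 := card_union_le (nb φ (a :: h) y ∩ Lw l ∪ R) (Hi R l)
      have t3 := card_union_le (nb φ (a :: h) y ∩ Lw l) R
      omega
    have p3 := I.hdeg y
    omega

lemma iv_all (hβ : 1 ≤ β) (hφ : Function.Injective φ)
    (hρ : ∀ u b, ρ u = some b ↔ φ b = u) {H : List (Arc n)} (hH : Proper H)
    {r : ℕ} (hr : R.card ≤ r) (hM : 9 * M + 9 * r + 13 * W ≤ d)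
    (hhit : ∀ h h1 : List (Arc n), h <:+ H → h1 <:+ H → ∀ y,
      Disjoint (nb φ h y \ nb φ h1 y) R → (nb φ h y \ nb φ h1 y).card < W) :
    ∀ h, h <:+ H → ∃ l, Iv β d M φ ρ R h l ∧ ∀ y, l y = some y → Wn d W φ ρ R h l y
  | [], _ => by
    have hnb : ∀ y, nb φ ([] : List (Arc n)) y = ∅ := fun y => by simp [nb, played]
    let l : Fin k → Option (Fin k) := fun b => if b ∈ R then none else some b
    have hR : ∀ b, l b = none ↔ b ∈ R := fun b => by simp [l]
    have hlab : ∀ b z, l b = some z → z = b ∨ (z ∈ R ∧ played [] (φ b) (φ z)) := by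
      intro b z hz
      simp only [l] at hz
      split_ifs at hz
      exact Or.inl (Option.some.inj hz).symm
    refine ⟨l, ⟨hR, hlab, fun y => by simp [hnb], 0, 0, by simp [hnb], ?_, ?_⟩, ?_⟩
    · unfold wg
      rw [if_pos (good_of hρ hR hlab)]
      have : dom (ρ, l) = univ.image φ := by
        ext u
        simp only [dom, mem_filter, mem_univ, true_and, mem_image, Option.ne_none_iff_exists']
        exact exists_congr fun b => hρ u b
      rw [this, card_image_of_injective _ hφ]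
      simp
    · have : Hi R l = ∅ := by
        ext b
        simp only [Hi, l, mem_filter, mem_univ, true_and, notMem_empty, iff_false, not_and]
        intro hb; simp [hb]
      simp [this, hnb, ac]
    · intro y _
      exact ⟨[], List.suffix_rfl, by simp, by simp [ac]; omega⟩
  | a :: h, hs => by
    have hs' : h <:+ H := (List.suffix_cons a h).trans hs
    obtain ⟨l, I, hw⟩ := iv_all hβ hφ hρ hH hr hM hhit h hs'
    have hp : Proper (a :: h) := hH.suffix hs
    obtain ⟨I', hw'⟩ := stA hβ hφ hρ hp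
      (fun h1 s1 => hhit h h1 hs' (s1.trans hs')) I hw
    by_cases hall : ∀ y, l y = some y → Wn d W φ ρ R (a :: h) l y
    · exact ⟨l, I', hall⟩
    push Not at hall
    obtain ⟨y, hy, hny⟩ := hall
    obtain ⟨z, hz, ha, hd⟩ := (hw' y hy).resolve_left hny
    obtain ⟨I2, ra⟩ := stB hβ hφ hρ hp hr hM I' hy hz ha hd
    refine ⟨_, I2, fun y' hy' => ?_⟩
    have hyR : y ∉ R := fun e => by rw [(I.hR y).2 e] at hy; simp at hy
    have hne : y' ≠ y := by
      rintro rfl
      simp only [Function.update_self, Option.some.injEq] at hy'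
      exact hyR (hy' ▸ hz)
    rw [Function.update_of_ne hne] at hy'
    have hyR' : y' ∉ R := fun e => by rw [(I.hR y').2 e] at hy'; simp at hy'
    rcases hw' y' hy' with ⟨h1, s1, s2, s3⟩ | ⟨z', hz', ha', -⟩
    · exact ⟨h1, s1, s2, by rw [ra]; exact s3⟩
    · exfalso
      rcases ha with rfl | rfl <;> rcases ha' with e | e <;>
        simp only [Prod.mk.injEq, hφ.eq_iff] at e <;> grind

end

theorem breaker_fin (hn : n % 4 = 0 ∨ n % 4 = 1) {T : Fin k → Fin k → Prop} (hT : IsTournament T)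
    {β : ℝ} (hβ : Par β) (d W r M : ℕ)
    (hpay : 20 * k * ((1 / (n : ℝ)) * β ^ d) ≤ 1 / 20000)
    (hW : W ≤ k) (hr : (k : ℝ) * ((k : ℝ) + 1) ^ 2 * (1 - (W : ℝ) / k) ^ r < 1)
    (hM : 9 * M + 9 * r + 13 * W ≤ d) (hd : d < 9 * k)
    (hfin : ∀ c e : ℕ, 2 * c = k * (k - 1) → 9 * (M * M) ≤ 34 * e →
      2 * (2 ^ k * ((k : ℝ) + 1) ^ k) < (1 / (n : ℝ)) ^ k * β ^ (9 * c + 4 * e)) :
    BreakerWins T (∅ : Finset (Arc n)) true := by
  refine game_start (d := d) hn hT hβ hpay ?_
  rintro H D f G hend hB ⟨φ, hφ, hcopy⟩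
  have hH := G.prop
  let ρ : Fin n → Option (Fin k) := fun u => if h : ∃ b, φ b = u then some h.choose else none
  have hρ : ∀ u b, ρ u = some b ↔ φ b = u := by
    intro u b
    simp only [ρ]
    split_ifs with h
    · constructor
      · intro e
        obtain rfl : h.choose = b := by simpa using e
        exact h.choose_spec
      · intro e
        rw [hφ (h.choose_spec.trans e.symm)]
    · simp only [false_iff]
      exact fun e => h ⟨b, e⟩
  have hc : ∀ b c, (φ b, φ c) ∈ D → T b c := by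
    intro b c hm
    have hbc : b ≠ c := by
      rintro rfl
      exact G.asym _ hm hm
    rw [hT.2 b c hbc]
    exact fun e => G.asym _ hm (hcopy c b e)
  obtain ⟨R, hR, hhit⟩ := exists_hit (by omega) W r hW hr φ H
  obtain ⟨l, I, hw⟩ := iv_all (d := d) hβ.h1 hφ hρ hH hR hM hhit H List.suffix_rfl
  have hal : alive T (ρ, l) D f := by
    have h1 : ∀ a ∈ D, inside (ρ, l) a → compat T (ρ, l) a := by
      intro a ha hi
      obtain ⟨b, hb⟩ := Option.ne_none_iff_exists'.1 hi.1
      obtain ⟨c, hc'⟩ := Option.ne_none_iff_exists'.1 hi.2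
      refine ⟨b, c, hb, hc', hc b c ?_⟩
      rw [(hρ _ _).1 hb, (hρ _ _).1 hc']
      exact ha
    refine ⟨h1, fun a _ i2 c1 => h1 _ (G.rep a ?_) i2⟩
    obtain ⟨b, c, hb, hc', ht⟩ := c1
    have := hcopy b c ht
    rwa [(hρ _ _).1 hb, (hρ _ _).1 hc'] at this
  have hnb : ∀ y, (nb φ H y).card = k - 1 := by
    intro y
    have : nb φ H y = univ.erase y := by
      ext z
      simp only [nb, mem_filter, mem_univ, true_and, mem_erase, and_true]
      constructor
      · rintro e rfl
        exact hH.noloop _ e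
      · intro e
        have h2 : φ y ≠ φ z := fun q => e (hφ q).symm
        by_contra h3
        exact hend (φ y) (φ z) (G.legal (p := (φ y, φ z)) ⟨h2, h3⟩)
    rw [this, card_erase_of_mem (mem_univ _)]
    simp
  have hL : Lw l = ∅ := by
    ext y
    simp only [Lw, mem_filter, mem_univ, true_and, notMem_empty, iff_false]
    intro hy
    obtain ⟨h1, s1, s2, s3⟩ := hw y hy
    have t1 := hhit H h1 List.suffix_rfl s1 y s2
    have t2 := I.hdeg y
    rw [hnb] at t2
    omega
  have hHi : M ≤ (Hi R l).card := by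
    have : (univ : Finset (Fin k)) ⊆ R ∪ Hi R l := by
      intro y _
      have : y ∉ Lw l := by rw [hL]; simp
      simp only [Lw, mem_filter, mem_univ, true_and] at this
      simp only [mem_union, Hi, mem_filter, mem_univ, true_and]
      tauto
    have t1 := card_le_card this
    have t2 := card_union_le R (Hi R l)
    simp only [card_univ, Fintype.card_fin] at t1
    omega
  obtain ⟨c, e, c1, c2, c3⟩ := I.hcount
  rw [hL] at c3
  simp only [sum_empty, mul_zero, add_zero] at c3
  simp only [hnb, sum_const, card_univ, Fintype.card_fin, smul_eq_mul] at c1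
  have t0 := sum_range_sub M _ hHi
  have t1 := hfin c e c1 (by omega)
  have t2 : ww T β d H D f (ρ, l) ≤ PP T β d H D f :=
    single_le_sum (f := fun o => ww T β d H D f o) (fun o _ => ww_nonneg hβ.h1 H D f o)
      (mem_univ _)
  have t3 : ww T β d H D f (ρ, l) = wg β d (ρ, l) H := by unfold ww; rw [if_pos hal]
  linarith

end Pool.Agent.Lib.OG25
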