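import Pool.Agent.Lib.OG25.Round

namespace Pool.Agent.Lib.OG25

open Classical Finset Pool.Agent.Lib.MP_90961b_co

variable {k n : ℕ} {T : Fin k → Fin k → Prop} {β : ℝ} {d : ℕ}

/-- `h`: processed edges, `D`: oriented arcs, `f`: promised replies on reserved edges -/
structure GI (h : List (Arc n)) (D : Finset (Arc n)) (f : Arc n → Arc n) : Prop where
  prop : Proper h
  sub : ∀ a ∈ D, played h a.1 a.2
  cov : ∀ a : Arc n, played h a.1 a.2 → a ∈ D ∨ a.swap ∈ D ∨ f a ≠ a
  res : ∀ a, f a ≠ a → played h a.1 a.2
  inv : ∀ a, f (f a) = a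
  swp : ∀ a, f a.swap = (f a).swap
  nsw : ∀ a, f a = a.swap → f a = a
  rep : ∀ a ∈ D, f a ∈ D
  asym : ∀ a ∈ D, a.swap ∉ D

def free (h : List (Arc n)) (a : Arc n) : Prop := a.1 ≠ a.2 ∧ ¬ played h a.1 a.2

lemma free_iff (h : List (Arc n)) (a : Arc n) : free h a ↔ Legal h.toFinset a.1 a.2 := by
  unfold free Legal played
  simp only [List.mem_toFinset, not_or]

lemma played_swap {h : List (Arc n)} {a : Arc n} :
    played h a.swap.1 a.swap.2 ↔ played h a.1 a.2 := by
  unfold played
  simp only [Prod.fst_swap, Prod.snd_swap]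
  tauto

lemma free_swap {h : List (Arc n)} {a : Arc n} (ha : free h a) : free h a.swap :=
  ⟨ha.1.symm, fun e => ha.2 (played_swap.1 e)⟩

lemma played_cons_iff {h : List (Arc n)} {p a : Arc n} :
    played (p :: h) a.1 a.2 ↔ a = p ∨ a = p.swap ∨ played h a.1 a.2 := by
  obtain ⟨a1, a2⟩ := a
  obtain ⟨p1, p2⟩ := p
  unfold played
  simp only [List.mem_cons, Prod.mk.injEq, Prod.swap_prod_mk]
  tauto

lemma free_cons {h : List (Arc n)} {p y : Arc n} (hy : free (p :: h) y) :
    free h y ∧ y ≠ p ∧ y ≠ p.swap := by
  have := hy.2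
  rw [played_cons_iff] at this
  push Not at this
  exact ⟨⟨hy.1, this.2.2⟩, this.1, this.2.1⟩

lemma swap_ne {a : Arc n} (ha : a.1 ≠ a.2) : a.swap ≠ a := fun e => ha (congrArg Prod.snd e)

lemma legal_iff {D : Finset (Arc n)} {a : Arc n} :
    Legal D a.1 a.2 ↔ a.1 ≠ a.2 ∧ a ∉ D ∧ a.swap ∉ D := Iff.rfl

lemma GI.fix {h : List (Arc n)} {D : Finset (Arc n)} {f : Arc n → Arc n} (I : GI h D f)
    {p : Arc n} (hp : free h p) : f p = p := by
  by_contra e
  exact hp.2 (I.res p e)

lemma GI.legal {h : List (Arc n)} {D : Finset (Arc n)} {f : Arc n → Arc n} (I : GI h D f)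
    {p : Arc n} (hp : free h p) : Legal D p.1 p.2 :=
  legal_iff.2 ⟨hp.1, fun e => hp.2 (I.sub p e), fun e => hp.2 (played_swap.1 (I.sub _ e))⟩

lemma GI.play {h : List (Arc n)} {D : Finset (Arc n)} {f : Arc n → Arc n} (I : GI h D f)
    {p : Arc n} (hp : free h p) : GI (p :: h) (insert p D) f := by
  have hl := legal_iff.1 (I.legal hp)
  refine ⟨⟨I.prop, (free_iff h p).1 hp⟩, ?_, ?_, ?_, I.inv, I.swp, I.nsw, ?_, ?_⟩
  · intro a ha
    rw [played_cons_iff]
    rcases mem_insert.1 ha with e | e
    · exact Or.inl e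
    · exact Or.inr (Or.inr (I.sub a e))
  · intro a ha
    rw [played_cons_iff] at ha
    rcases ha with e | e | e
    · exact Or.inl (by rw [e]; simp)
    · exact Or.inr (Or.inl (by rw [e]; simp))
    · rcases I.cov a e with q | q | q
      · exact Or.inl (mem_insert_of_mem q)
      · exact Or.inr (Or.inl (mem_insert_of_mem q))
      · exact Or.inr (Or.inr q)
  · intro a ha
    exact played_cons p (I.res a ha)
  · intro a ha
    rcases mem_insert.1 ha with e | e
    · rw [e, I.fix hp]; simp
    · exact mem_insert_of_mem (I.rep a e)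
  · intro a ha hs
    rcases mem_insert.1 ha with e | e <;> rcases mem_insert.1 hs with q | q
    · rw [e] at q; exact swap_ne hp.1 q
    · rw [e] at q; exact hl.2.2 q
    · apply hl.2.2
      rw [← q, Prod.swap_swap]; exact e
    · exact I.asym a e q

lemma GI.reserve {h : List (Arc n)} {D : Finset (Arc n)} {f : Arc n → Arc n} (I : GI h D f)
    {p y : Arc n} (hp : free h p) (hy : free (p :: h) y) :
    GI (y :: p :: h) D (rsv f p y.swap) := by
  obtain ⟨hy0, n1, n2⟩ := free_cons hy
  have f1 := I.fix hp
  have f2 := I.fix (free_swap hp)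
  have f3 := I.fix hy0
  have f4 := I.fix (free_swap hy0)
  have s1 := swap_ne hp.1
  have s2 := swap_ne hy0.1
  have n3 : y.swap ≠ p := fun e => n2 (by rw [← e, Prod.swap_swap])
  have n4 : y.swap ≠ p.swap := fun e => n1 (Prod.swap_injective e)
  have r1 : rsv f p y.swap p = y.swap := by unfold rsv; rw [if_pos rfl]
  have r2 : rsv f p y.swap y.swap = p := by unfold rsv; rw [if_neg n3, if_pos rfl]
  have r3 : rsv f p y.swap p.swap = y := by
    unfold rsv; rw [if_neg s1, if_neg n4.symm, if_pos rfl, Prod.swap_swap]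
  have r4 : rsv f p y.swap y = p.swap := by
    unfold rsv; rw [if_neg n1, if_neg s2.symm, if_neg n2, if_pos (Prod.swap_swap y).symm]
  have r5 : ∀ a, a ≠ p → a ≠ y.swap → a ≠ p.swap → a ≠ y → rsv f p y.swap a = f a := by
    intro a q1 q2 q3 q4
    unfold rsv
    rw [if_neg q1, if_neg q2, if_neg q3, if_neg (by rw [Prod.swap_swap]; exact q4)]
  have cases4 : ∀ a : Arc n, a = p ∨ a = y.swap ∨ a = p.swap ∨ a = y ∨
      (a ≠ p ∧ a ≠ y.swap ∧ a ≠ p.swap ∧ a ≠ y) := fun a => by tauto
  have hfa : ∀ a x, f x = x → a ≠ x → f a ≠ x := by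
    intro a x hx hax e
    apply hax
    rw [← I.inv a, e, hx]
  have lp := legal_iff.1 (I.legal hp)
  have ly := legal_iff.1 (I.legal hy0)
  refine ⟨⟨⟨I.prop, (free_iff h p).1 hp⟩, (free_iff _ y).1 hy⟩, ?_, ?_, ?_, ?_, ?_, ?_, ?_,
    I.asym⟩
  · intro a ha
    exact played_cons y (played_cons p (I.sub a ha))
  · intro a ha
    rcases cases4 a with e | e | e | e | ⟨q1, q2, q3, q4⟩
    · right; right; rw [e, r1]; exact n3
    · right; right; rw [e, r2]; exact n3.symm
    · right; right; rw [e, r3]; exact n2
    · right; right; rw [e, r4]; exact n2.symm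
    · rw [played_cons_iff, played_cons_iff] at ha
      rw [r5 a q1 q2 q3 q4]
      apply I.cov
      rcases ha with e | e | e | e | e
      · exact absurd e q4
      · exact absurd e q2
      · exact absurd e q1
      · exact absurd e q3
      · exact e
  · intro a ha
    rw [played_cons_iff, played_cons_iff]
    rcases cases4 a with e | e | e | e | ⟨q1, q2, q3, q4⟩
    · exact Or.inr (Or.inr (Or.inl e))
    · exact Or.inr (Or.inl e)
    · exact Or.inr (Or.inr (Or.inr (Or.inl e)))
    · exact Or.inl e
    · rw [r5 a q1 q2 q3 q4] at ha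
      exact Or.inr (Or.inr (Or.inr (Or.inr (I.res a ha))))
  · intro a
    rcases cases4 a with e | e | e | e | ⟨q1, q2, q3, q4⟩
    · rw [e, r1, r2]
    · rw [e, r2, r1]
    · rw [e, r3, r4]
    · rw [e, r4, r3]
    · rw [r5 a q1 q2 q3 q4, r5 (f a) (hfa a _ f1 q1) (hfa a _ f4 q2) (hfa a _ f2 q3)
        (hfa a _ f3 q4), I.inv]
  · intro a
    rcases cases4 a with e | e | e | e | ⟨q1, q2, q3, q4⟩
    · rw [e, r1, r3, Prod.swap_swap]
    · rw [e, r2, Prod.swap_swap, r4]
    · rw [e, r3, Prod.swap_swap, r1]
    · rw [e, r4, r2, Prod.swap_swap]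
    · rw [r5 a q1 q2 q3 q4, r5 a.swap, I.swp]
      · intro e; apply q3; rw [← e, Prod.swap_swap]
      · exact fun e => q4 (Prod.swap_injective e)
      · exact fun e => q1 (Prod.swap_injective e)
      · intro e; apply q2; rw [← e, Prod.swap_swap]
  · intro a ha
    rcases cases4 a with e | e | e | e | ⟨q1, q2, q3, q4⟩
    · rw [e, r1] at ha; exact absurd ha n4
    · rw [e, r2, Prod.swap_swap] at ha; exact absurd ha.symm n1
    · rw [e, r3, Prod.swap_swap] at ha; exact absurd ha n1
    · rw [e, r4] at ha; exact absurd ha.symm n4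
    · rw [r5 a q1 q2 q3 q4] at ha ⊢
      exact I.nsw a ha
  · intro a ha
    rcases cases4 a with e | e | e | e | ⟨q1, q2, q3, q4⟩
    · rw [e] at ha; exact absurd ha lp.2.1
    · rw [e] at ha; exact absurd ha ly.2.2
    · rw [e] at ha; exact absurd ha lp.2.2
    · rw [e] at ha; exact absurd ha ly.2.1
    · rw [r5 a q1 q2 q3 q4]
      exact I.rep a ha

lemma GI.opn {h : List (Arc n)} {D : Finset (Arc n)} {f : Arc n → Arc n} (I : GI h D f)
    {a : Arc n} (hl : Legal D a.1 a.2) (hp : played h a.1 a.2) :
    Legal (insert a D) (f a).1 (f a).2 ∧ GI h (insert (f a) (insert a D)) f := by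
  obtain ⟨l1, l2, l3⟩ := legal_iff.1 hl
  have n1 : f a ≠ a := by
    rcases I.cov a hp with q | q | q
    · exact absurd q l2
    · exact absurd q l3
    · exact q
  have n2 : f a ≠ a.swap := fun e => n1 (I.nsw a e)
  have n3 : (f a).swap ≠ a := fun e => n2 (by rw [← e, Prod.swap_swap, e])
  have p1 : played h (f a).1 (f a).2 := I.res _ (by rw [I.inv]; exact n1.symm)
  have m1 : (f a).1 ≠ (f a).2 := by
    intro e
    rw [e] at p1
    exact I.prop.noloop _ p1
  have m2 : f a ∉ D := fun e => l2 (by have := I.rep _ e; rwa [I.inv] at this)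
  have m3 : (f a).swap ∉ D := fun e => l3 (by
    have := I.rep _ e
    rwa [I.swp, I.inv] at this)
  refine ⟨legal_iff.2 ⟨m1, ?_, ?_⟩, I.prop, ?_, ?_, I.res, I.inv, I.swp, I.nsw, ?_, ?_⟩
  · simp only [mem_insert, not_or]; exact ⟨n1, m2⟩
  · simp only [mem_insert, not_or]; exact ⟨n3, m3⟩
  · intro b hb
    simp only [mem_insert] at hb
    rcases hb with e | e | e
    · rw [e]; exact p1
    · rw [e]; exact hp
    · exact I.sub b e
  · intro b hb
    rcases I.cov b hb with q | q | q
    · exact Or.inl (mem_insert_of_mem (mem_insert_of_mem q))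
    · exact Or.inr (Or.inl (mem_insert_of_mem (mem_insert_of_mem q)))
    · exact Or.inr (Or.inr q)
  · intro b hb
    simp only [mem_insert] at hb ⊢
    rcases hb with e | e | e
    · rw [e, I.inv]; tauto
    · rw [e]; tauto
    · exact Or.inr (Or.inr (I.rep b e))
  · intro b hb hs
    simp only [mem_insert] at hb hs
    rcases hb with e | e | e <;> rcases hs with q | q | q
    · rw [e] at q; exact swap_ne m1 q
    · rw [e] at q; exact n3 q
    · rw [e] at q; exact m3 q
    · rw [e] at q; exact n2 q.symm
    · rw [e] at q; exact swap_ne l1 q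
    · rw [e] at q; exact l3 q
    · apply m3; rw [← q, Prod.swap_swap]; exact e
    · apply l3; rw [← q, Prod.swap_swap]; exact e
    · exact I.asym b e q

lemma proper_card : ∀ {h : List (Arc n)}, Proper h → h.toFinset.card = h.length
  | [], _ => by simp
  | a :: h, hp => by
    have ih := proper_card hp.1
    rw [List.toFinset_cons, card_insert_of_notMem hp.2.2.1, ih, List.length_cons]

lemma proper_len {h : List (Arc n)} (hp : Proper h) : h.length ≤ n * n := by
  rw [← proper_card hp]
  simpa using card_le_univ h.toFinset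

lemma full_len {h : List (Arc n)} (hp : Proper h) (hf : ∀ a, ¬ free h a) :
    2 * h.length + n = n * n := by
  have e : (univ : Finset (Fin n)).offDiag = h.toFinset ∪ h.toFinset.image Prod.swap := by
    ext a
    obtain ⟨u, v⟩ := a
    simp only [mem_offDiag, mem_univ, true_and, mem_union, List.mem_toFinset, mem_image,
      Prod.exists, Prod.swap_prod_mk, Prod.mk.injEq]
    constructor
    · intro huv
      have := hf (u, v)
      unfold free played at this
      simp only [not_and, not_not] at this
      rcases this huv with q | q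
      · exact Or.inl q
      · exact Or.inr ⟨v, u, q, rfl, rfl⟩
    · rintro (q | ⟨x, y, q, rfl, rfl⟩)
      · rintro rfl
        exact hp.asymm _ _ q q
      · rintro rfl
        exact hp.asymm _ _ q q
  have hd : Disjoint h.toFinset (h.toFinset.image Prod.swap) := by
    rw [disjoint_left]
    rintro ⟨u, v⟩ h1 h2
    simp only [List.mem_toFinset, mem_image, Prod.exists, Prod.swap_prod_mk,
      Prod.mk.injEq] at h1 h2
    obtain ⟨x, y, q, rfl, rfl⟩ := h2
    exact hp.asymm _ _ q h1
  have c1 := congrArg card e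
  rw [card_union_of_disjoint hd, card_image_of_injective _ Prod.swap_injective, proper_card hp,
    offDiag_card, card_univ, Fintype.card_fin] at c1
  have c2 : n ≤ n * n := Nat.le_mul_self n
  omega

lemma exists_free (hn : n % 4 = 0 ∨ n % 4 = 1) {h : List (Arc n)} (hp : Proper h)
    (ho : h.length % 2 = 1) : ∃ a, free h a := by
  by_contra hc
  push Not at hc
  have h1 := full_len hp hc
  have h2 : (n * n) % 4 = n % 4 := by
    rcases hn with e | e <;> simp [Nat.mul_mod, e]
  omega

theorem game_ind (hn : n % 4 = 0 ∨ n % 4 = 1) (hT : IsTournament T) (hβ : Par β)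
    (hpay : 20 * k * ((1 / (n : ℝ)) * β ^ d) ≤ 1 / 20000) (B : ℝ)
    (hterm : ∀ (h : List (Arc n)) D f, GI h D f → (∀ u v, ¬ Legal D u v) → PP T β d h D f ≤ B → ¬ HasCopy T D) :
    ∀ m : ℕ, (∀ (h : List (Arc n)) D f, GI h D f → h.length % 2 = 1 → 2 * (n * n) ≤ h.length + D.card + m →
        PP T β d h D f ≤ B → BreakerWins T D false) ∧
      (∀ (h : List (Arc n)) D f, GI h D f → h.length % 2 = 0 → 2 * (n * n) ≤ h.length + D.card + m →
        PP T β d h D f ≤ B → (∀ y, free h y → PP T β d (y :: h) (insert y D) f ≤ B) →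
        BreakerWins T D true) := by
  have hD : ∀ D : Finset (Arc n), D.card ≤ n * n := fun D => by simpa using card_le_univ D
  intro m
  induction m using Nat.strong_induction_on with
  | _ m ih =>
  constructor
  · intro h D f I ho hm hB
    obtain ⟨p, hp, hmin⟩ := exists_min_image (univ.filter fun a : Arc n => free h a)
      (sc T β d h D f) (by
        obtain ⟨a, ha⟩ := exists_free hn I.prop ho
        exact ⟨a, by simpa using ha⟩)
    simp only [mem_filter, mem_univ, true_and] at hp hmin
    have hswap : ∀ y, free h y → sc T β d h D f p + sc T β d h D f y ≤ 0 := by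
      intro y hy
      have := hmin y.swap (free_swap hy)
      rw [sc_swap hT h D f hy.1] at this
      linarith
    by_cases hres : ∃ y, free (p :: h) y ∧
        PP T β d (y :: p :: h) D (rsv f p y.swap) ≤ PP T β d h D f
    · obtain ⟨y, hy, hle⟩ := hres
      have I' := I.reserve hp hy
      have c1 := proper_len I'.prop
      have c2 := hD D
      simp only [List.length_cons] at c1
      exact (ih (m - 2) (by omega)).1 _ _ _ I' (by simp only [List.length_cons]; omega)
        (by simp only [List.length_cons]; omega) (hle.trans hB)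
    · push Not at hres
      have I' := I.play hp
      have hl := I.legal hp
      have c1 := proper_len I'.prop
      have c2 := hD (insert p D)
      have c3 : (insert p D).card = D.card + 1 := card_insert_of_notMem (legal_iff.1 hl).2.1
      simp only [List.length_cons] at c1
      refine BreakerWins.breaker D p.1 p.2 hl ?_
      change BreakerWins T (insert p D) true
      refine (ih (m - 2) (by omega)).2 _ _ _ I' (by simp only [List.length_cons]; omega)
        (by simp only [List.length_cons]; omega) ?_ ?_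
      · refine (PP_one hβ h D f ?_).trans hB
        have := hswap p hp
        linarith
      · intro y hy
        obtain ⟨hy0, n1, n2⟩ := free_cons hy
        rcases PP_two hT hβ hpay h D hp.1 hy0.1 n1 n2 (I.fix hp) (I.fix (free_swap hp))
          (I.fix hy0) (I.fix (free_swap hy0)) (hswap y hy0) with q | q
        · exact q.trans hB
        · exact absurd q (not_le.2 (hres y hy))
  · intro h D f I he hm hB hall
    by_cases hex : ∃ u v, Legal D u v
    swap
    · push Not at hex
      exact BreakerWins.finished _ _ hex (hterm h D f I hex hB)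
    refine BreakerWins.maker _ hex fun u v huv => ?_
    by_cases hp : played h u v
    · obtain ⟨l1, I'⟩ := I.opn (a := (u, v)) huv hp
      have c2 := hD (insert (f (u, v)) (insert (u, v) D))
      have c3 : (insert (u, v) D).card = D.card + 1 := card_insert_of_notMem huv.2.1
      have c4 : (insert (f (u, v)) (insert (u, v) D)).card = (insert (u, v) D).card + 1 :=
        card_insert_of_notMem (legal_iff.1 l1).2.1
      have c1 := proper_len I.prop
      have hsub : D ⊆ insert (f (u, v)) (insert (u, v) D) :=
        (subset_insert _ _).trans (subset_insert _ _)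
      refine BreakerWins.breaker _ (f (u, v)).1 (f (u, v)).2 l1 ?_
      change BreakerWins T (insert (f (u, v)) (insert (u, v) D)) true
      refine (ih (m - 2) (by omega)).2 _ _ _ I' he (by omega)
        ((PP_mono hβ.h1 h hsub f).trans hB) ?_
      intro y hy
      exact (PP_mono hβ.h1 _ (insert_subset_insert y hsub) f).trans (hall y hy)
    · have hy : free h (u, v) := ⟨huv.1, hp⟩
      have I' := I.play hy
      have c1 := proper_len I'.prop
      have c2 := hD (insert (u, v) D)
      have c3 : (insert (u, v) D).card = D.card + 1 := card_insert_of_notMem huv.2.1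
      simp only [List.length_cons] at c1
      exact (ih (m - 2) (by omega)).1 _ _ _ I' (by simp only [List.length_cons]; omega)
        (by simp only [List.length_cons]; omega) (hall _ hy)

theorem game_start (hn : n % 4 = 0 ∨ n % 4 = 1) (hT : IsTournament T) (hβ : Par β)
    (hpay : 20 * k * ((1 / (n : ℝ)) * β ^ d) ≤ 1 / 20000)
    (hterm : ∀ h D f, GI h D f → (∀ u v : Fin n, ¬ Legal D u v) →
      PP T β d h D f ≤ 2 * (2 ^ k * ((k : ℝ) + 1) ^ k) → ¬ HasCopy T D) :
    BreakerWins T (∅ : Finset (Arc n)) true := by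
  have I : GI ([] : List (Arc n)) ∅ id := by
    refine ⟨trivial, by simp, ?_, by simp, by simp, by simp, by simp, by simp, by simp⟩
    intro a ha
    simp [played] at ha
  exact (game_ind hn hT hβ hpay _ hterm (2 * (n * n))).2 [] ∅ id I rfl (by omega)
    (PP_nil hβ _ _) fun y _ => PP_first hβ y _ _

end Pool.Agent.Lib.OG25
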