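import Pool.Agent.Lib.MP_90961b_co.Asym

namespace Pool.Agent.Lib.OG25

open Classical Finset Pool.Agent.Lib.MP_90961b_co

variable {k n : ℕ}

/-- orientation-blind multiplier of an edge -/
noncomputable def mu (β : ℝ) (o : Obj k n) (h : List (Arc n)) (a : Arc n) : ℝ :=
  if inside o a then (if early o h a then β ^ 13 else β ^ 9) else 1

noncomputable def ac (o : Obj k n) : List (Arc n) → Fin n → ℕ
  | [], _ => 0
  | a :: h, y => ac o h y +
      if (y = a.1 ∨ y = a.2) ∧ inside o a then (if early o h a then 13 else 9) else 0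

def vld (d : ℕ) (o : Obj k n) (h : List (Arc n)) : Prop := ∀ y, low o h y → ac o h y ≤ d

noncomputable def wg (β : ℝ) (d : ℕ) (o : Obj k n) : List (Arc n) → ℝ
  | [] => if Good o then (1 / (n : ℝ)) ^ (dom o).card else 0
  | a :: h => if vld d o (a :: h) then wg β d o h * mu β o h a else 0

section basic
variable {β : ℝ} {d : ℕ}

lemma mu_ge (hβ : 1 ≤ β) (o : Obj k n) (h : List (Arc n)) (a : Arc n) : 1 ≤ mu β o h a := by
  unfold mu
  split_ifs
  · exact one_le_pow₀ hβ
  · exact one_le_pow₀ hβ
  · exact le_rfl

lemma mu_nonneg (hβ : 1 ≤ β) (o : Obj k n) (h : List (Arc n)) (a : Arc n) : 0 ≤ mu β o h a :=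
  zero_le_one.trans (mu_ge hβ o h a)

lemma wg_nonneg (hβ : 1 ≤ β) (o : Obj k n) : ∀ h : List (Arc n), 0 ≤ wg β d o h
  | [] => by unfold wg; split_ifs <;> positivity
  | a :: h => by
    unfold wg
    split_ifs
    · exact mul_nonneg (wg_nonneg hβ o h) (mu_nonneg hβ o h a)
    · exact le_rfl

lemma wg_cons_le (hβ : 1 ≤ β) (o : Obj k n) (h : List (Arc n)) (a : Arc n) :
    wg β d o (a :: h) ≤ wg β d o h * mu β o h a := by
  rw [wg]
  split_ifs
  · exact le_rfl
  · exact mul_nonneg (wg_nonneg hβ o h) (mu_nonneg hβ o h a)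

lemma good_of_wg {o : Obj k n} : ∀ {h : List (Arc n)}, wg β d o h ≠ 0 → Good o
  | [], hw => by
    unfold wg at hw
    by_contra hg
    simp [hg] at hw
  | a :: h, hw => by
    rw [wg] at hw
    split_ifs at hw
    · exact good_of_wg (left_ne_zero_of_mul hw)
    · exact absurd rfl hw

lemma vld_of_wg {o : Obj k n} : ∀ {h : List (Arc n)}, wg β d o h ≠ 0 → vld d o h
  | [], _ => fun y _ => by simp [ac]
  | a :: h, hw => by
    rw [wg] at hw
    split_ifs at hw with hv
    · exact hv
    · exact absurd rfl hw

lemma mu_cons_le (hβ : 1 ≤ β) (o : Obj k n) (h : List (Arc n)) (p a : Arc n) :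
    mu β o (p :: h) a ≤ mu β o h a := by
  have h0 : β ^ 9 ≤ β ^ 13 := pow_le_pow_right₀ hβ (by norm_num)
  unfold mu
  by_cases h1 : inside o a
  · by_cases h3 : early o (p :: h) a
    · have h4 : early o h a := ⟨low_of_cons h3.1, low_of_cons h3.2⟩
      simp [h1, h3, h4]
    · simp only [h1, h3, if_true, if_false]
      split_ifs <;> linarith
  · simp [h1]

lemma ac_del_le {o : Obj k n} (hg : Good o) {x : Fin n} {bx zx : Fin k} (hx : o.1 x = some bx)
    (hz : o.2 bx = some zx) (y : Fin n) : ∀ h : List (Arc n), ac (del o x) h y ≤ ac o h y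
  | [] => le_rfl
  | a :: h => by
    have ih := ac_del_le hg hx hz y h
    simp only [ac]
    refine Nat.add_le_add ih ?_
    by_cases h1 : (y = a.1 ∨ y = a.2) ∧ inside (del o x) a
    · have h2 := (inside_del o x a).1 h1.2
      have h3 : early (del o x) h a ↔ early o h a := by
        unfold early
        rw [low_del hg hx hz, low_del hg hx hz]
        tauto
      have h4 : (y = a.1 ∨ y = a.2) ∧ inside o a := ⟨h1.1, h2.2.2⟩
      rw [if_pos h1, if_pos h4]
      simp [h3]
    · rw [if_neg h1]; exact Nat.zero_le _

lemma wg_le_del (hβ : 1 ≤ β) {o : Obj k n} {x : Fin n} {bx zx : Fin k}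
    (hx : o.1 x = some bx) (hz : o.2 bx = some zx) : ∀ h : List (Arc n),
    wg β d o h ≤ (1 / (n : ℝ)) * β ^ (ac o h x) * wg β d (del o x) h
  | [] => by
    unfold wg
    by_cases hg : Good o
    · rw [if_pos hg, if_pos (good_del hg x)]
      have : dom o = insert x (dom (del o x)) := by
        ext u
        simp only [dom, del, mem_filter, mem_univ, true_and, mem_insert]
        by_cases hu : u = x
        · simp [hu, hx]
        · simp [hu]
      have h2 : x ∉ dom (del o x) := by simp [dom, del]
      rw [this, card_insert_of_notMem h2]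
      simp only [ac, pow_zero, mul_one, pow_succ]
      exact le_of_eq (by ring)
    · rw [if_neg hg]
      have : (0 : ℝ) ≤ β := by linarith
      split_ifs <;> positivity
  | a :: h => by
    have ih := wg_le_del hβ hx hz h
    have hβ0 : (0 : ℝ) ≤ β := by linarith
    by_cases hw : wg β d o (a :: h) = 0
    · rw [hw]
      have := wg_nonneg (d := d) hβ (del o x) (a :: h)
      positivity
    have hg := good_of_wg hw
    have hv := vld_of_wg hw
    have hv' : vld d (del o x) (a :: h) := by
      intro y hy
      exact (ac_del_le hg hx hz y _).trans (hv y ((low_del hg hx hz _ y).1 hy).2)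
    rw [wg, wg, if_pos hv, if_pos hv']
    have hw0 := wg_nonneg (d := d) hβ (del o x) h
    by_cases hax : a.1 = x ∨ a.2 = x
    · have h1 : mu β (del o x) h a = 1 := by
        unfold mu
        rw [if_neg]
        rw [inside_del]; tauto
      have h2 : mu β o h a * β ^ (ac o h x) ≤ β ^ (ac o (a :: h) x) := by
        simp only [ac, pow_add]
        rw [mul_comm]
        apply mul_le_mul_of_nonneg_left _ (by positivity)
        have hax' : x = a.1 ∨ x = a.2 := by tauto
        unfold mu
        by_cases hi : inside o a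
        · simp only [hi, hax', and_self, if_true]
          split_ifs
          · exact le_rfl
          · exact le_rfl
        · simp [hi]
      rw [h1, mul_one]
      calc wg β d o h * mu β o h a
          ≤ (1 / (n : ℝ)) * β ^ (ac o h x) * wg β d (del o x) h * mu β o h a :=
            mul_le_mul_of_nonneg_right ih (mu_nonneg hβ o h a)
        _ = (1 / (n : ℝ)) * (mu β o h a * β ^ (ac o h x)) * wg β d (del o x) h := by ring
        _ ≤ _ := by gcongr
    · push Not at hax
      have h1 : mu β (del o x) h a = mu β o h a := by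
        have e1 : inside (del o x) a ↔ inside o a := by rw [inside_del]; tauto
        have e3 : early (del o x) h a ↔ early o h a := by
          unfold early
          rw [low_del hg hx hz, low_del hg hx hz]
          tauto
        unfold mu
        simp only [e1, e3]
      have h2 : ac o (a :: h) x = ac o h x := by
        simp only [ac]
        rw [if_neg]
        · rfl
        · rintro ⟨h3 | h3, -⟩
          · exact hax.1 h3.symm
          · exact hax.2 h3.symm
      rw [h1, h2, ← mul_assoc]
      exact mul_le_mul_of_nonneg_right ih (mu_nonneg hβ o h a)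

lemma mu_congr {o o' : Obj k n} (h1 : o.1 = o'.1) {h : List (Arc n)}
    (hl : ∀ u, low o h u ↔ low o' h u) (a : Arc n) : mu β o h a = mu β o' h a := by
  have e1 : inside o a ↔ inside o' a := by unfold inside; rw [h1]
  have e3 : early o h a ↔ early o' h a := by unfold early; rw [hl, hl]
  unfold mu
  simp only [e1, e3]

lemma ac_cons_congr {o o' : Obj k n} (h1 : o.1 = o'.1) {h : List (Arc n)}
    (hl : ∀ u, low o h u ↔ low o' h u) (ha : ∀ u, ac o h u = ac o' h u) (a : Arc n) (u : Fin n) :
    ac o (a :: h) u = ac o' (a :: h) u := by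
  have e1 : inside o a ↔ inside o' a := by unfold inside; rw [h1]
  have e3 : early o h a ↔ early o' h a := by unfold early; rw [hl, hl]
  simp only [ac, e1, e3, ha]

lemma relab {o o' : Obj k n} (h1 : o.1 = o'.1) (hg : Good o) (hg' : Good o') :
    ∀ h : List (Arc n), (∀ h', h' <:+ h → ∀ u, low o h' u ↔ low o' h' u) →
      (∀ u, ac o h u = ac o' h u) ∧ wg β d o h = wg β d o' h
  | [], _ => ⟨fun _ => rfl, by simp [wg, hg, hg', dom, h1]⟩
  | a :: h, hl => by
    obtain ⟨ia, iw⟩ := relab h1 hg hg' h fun h' hh' => hl h' (hh'.trans (List.suffix_cons a h))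
    have l0 := hl h (List.suffix_cons a h)
    have l1 := hl (a :: h) List.suffix_rfl
    have ia' := ac_cons_congr h1 l0 ia a
    refine ⟨ia', ?_⟩
    have hv : vld d o (a :: h) ↔ vld d o' (a :: h) := by
      unfold vld
      simp only [l1, ia']
    rw [wg, wg, iw, mu_congr h1 l0]
    simp only [hv]

lemma sum_wg_nil : ∑ o : Obj k n, wg β d o ([] : List (Arc n)) ≤ 2 ^ k * ((k : ℝ) + 1) ^ k := by
  have h := Phi_nil (T := fun _ _ : Fin k => True) (δ := 0) (d := d) (n := n)
  unfold Phi at h
  refine le_trans (le_of_eq ?_) h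
  refine sum_congr rfl fun o _ => ?_
  rw [wg, wt]

end basic

theorem Pot.rlz : True := by
  have := @ac.eq_def
  have := @wg.eq_def
  trivial

end Pool.Agent.Lib.OG25
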