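import Pool.Agent.Lib.OG25.Pot

namespace Pool.Agent.Lib.OG25

open Classical Finset Pool.Agent.Lib.MP_90961b_co

variable {k n : ℕ} {T : Fin k → Fin k → Prop} {β : ℝ} {d : ℕ}

structure Par (β : ℝ) : Prop where
  h1 : 1 ≤ β
  h9 : β ^ 9 ≤ 29999 / 20000
  h13 : β ^ 13 ≤ 1799 / 1000

/-- `o` agrees with the oriented arcs `D` and with the promised replies `f` -/
def alive (T : Fin k → Fin k → Prop) (o : Obj k n) (D : Finset (Arc n)) (f : Arc n → Arc n) :
    Prop :=
  (∀ a ∈ D, inside o a → compat T o a) ∧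
    ∀ a, inside o a → inside o (f a) → compat T o a → compat T o (f a)

noncomputable def ww (T : Fin k → Fin k → Prop) (β : ℝ) (d : ℕ) (h : List (Arc n))
    (D : Finset (Arc n)) (f : Arc n → Arc n) (o : Obj k n) : ℝ :=
  if alive T o D f then wg β d o h else 0

noncomputable def PP (T : Fin k → Fin k → Prop) (β : ℝ) (d : ℕ) (h : List (Arc n))
    (D : Finset (Arc n)) (f : Arc n → Arc n) : ℝ := ∑ o : Obj k n, ww T β d h D f o

noncomputable def sg (T : Fin k → Fin k → Prop) (o : Obj k n) (h : List (Arc n))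
    (a : Arc n) : ℝ :=
  if inside o a then
    (if compat T o a then 1 else -1) * (if early o h a then 9 / 10 else 9 / 16) else 0

noncomputable def sc (T : Fin k → Fin k → Prop) (β : ℝ) (d : ℕ) (h : List (Arc n))
    (D : Finset (Arc n)) (f : Arc n → Arc n) (a : Arc n) : ℝ :=
  ∑ o : Obj k n, ww T β d h D f o * sg T o h a

noncomputable def rR (T : Fin k → Fin k → Prop) (β : ℝ) (o : Obj k n) (h : List (Arc n))
    (p y : Arc n) : ℝ :=
  if (inside o p → compat T o p) ∧ (inside o y → compat T o y) then mu β o h p * mu β o h y else 0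

noncomputable def rZ (T : Fin k → Fin k → Prop) (β : ℝ) (o : Obj k n) (h : List (Arc n))
    (p y : Arc n) : ℝ :=
  if inside o p ∧ inside o y ∧ (compat T o p ↔ compat T o y) then 0 else mu β o h p * mu β o h y

def rsv (f : Arc n → Arc n) (p q : Arc n) : Arc n → Arc n := fun a =>
  if a = p then q else if a = q then p else if a = p.swap then q.swap
  else if a = q.swap then p.swap else f a

lemma inside_swap (o : Obj k n) (a : Arc n) : inside o a.swap ↔ inside o a := by
  unfold inside; simp only [Prod.fst_swap, Prod.snd_swap]; tauto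

lemma compat_swap (hT : IsTournament T) {o : Obj k n} (hg : Good o) {a : Arc n}
    (ha : a.1 ≠ a.2) (hi : inside o a) : compat T o a.swap ↔ ¬ compat T o a := by
  obtain ⟨b, hb⟩ := Option.ne_none_iff_exists'.1 hi.1
  obtain ⟨c, hc⟩ := Option.ne_none_iff_exists'.1 hi.2
  have hbc : b ≠ c := by
    rintro rfl
    exact ha (hg.1 _ _ _ hb hc)
  unfold compat
  simp only [Prod.fst_swap, Prod.snd_swap, hb, hc, Option.some.injEq, exists_and_left,
    exists_eq_left']
  exact hT.2 c b hbc.symm

lemma sg_swap (hT : IsTournament T) {o : Obj k n} (hg : Good o) (h : List (Arc n))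
    {a : Arc n} (ha : a.1 ≠ a.2) : sg T o h a.swap = - sg T o h a := by
  have e2 : early o h a.swap ↔ early o h a := by
    unfold early; simp only [Prod.fst_swap, Prod.snd_swap]; tauto
  unfold sg
  simp only [inside_swap, e2]
  by_cases hi : inside o a
  · simp only [hi, if_true, compat_swap hT hg ha hi]
    by_cases h3 : compat T o a <;> simp only [h3, not_true, not_false_iff, if_true, if_false] <;>
      ring
  · simp [hi]

lemma ww_nonneg (hβ : 1 ≤ β) (h : List (Arc n)) (D : Finset (Arc n)) (f : Arc n → Arc n)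
    (o : Obj k n) : 0 ≤ ww T β d h D f o := by
  unfold ww
  split_ifs
  · exact wg_nonneg hβ o h
  · exact le_rfl

lemma wg_of_ww {h : List (Arc n)} {D : Finset (Arc n)} {f : Arc n → Arc n}
    {o : Obj k n} (hw : ww T β d h D f o ≠ 0) : alive T o D f ∧ wg β d o h ≠ 0 := by
  unfold ww at hw
  split_ifs at hw with ha
  · exact ⟨ha, hw⟩
  · exact absurd rfl hw

lemma sc_swap (hT : IsTournament T) (h : List (Arc n)) (D : Finset (Arc n)) (f : Arc n → Arc n)
    {a : Arc n} (ha : a.1 ≠ a.2) : sc T β d h D f a.swap = - sc T β d h D f a := by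
  unfold sc
  rw [← sum_neg_distrib]
  refine sum_congr rfl fun o _ => ?_
  by_cases hw : ww T β d h D f o = 0
  · simp [hw]
  · rw [sg_swap hT (good_of_wg (wg_of_ww hw).2) h ha]; ring

lemma cert (hβ : Par β) (o : Obj k n) (h : List (Arc n)) (p y : Arc n) :
    (rR T β o h p y - 1) + 1 / 8 * (rZ T β o h p y - 1) ≤ sg T o h p + sg T o h y -
      (if single o p y then 1 / 20000 else 0) + (if bad o h p y then 5 else 0) := by
  have h1 : 1 ≤ β ^ 9 := one_le_pow₀ hβ.h1
  have h2 : 1 ≤ β ^ 13 := one_le_pow₀ hβ.h1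
  have h3 := hβ.h9
  have h4 := hβ.h13
  unfold rR rZ mu sg single bad
  generalize β ^ 9 = s at *
  generalize β ^ 13 = t at *
  have h5 : s * s ≤ 9 / 4 := by nlinarith
  have h6 : s * t ≤ 4 := by nlinarith
  have h7 : t * s ≤ 4 := by nlinarith
  have h8 : t * t ≤ 4 := by nlinarith
  by_cases a1 : inside o p <;> by_cases a2 : inside o y <;> by_cases a3 : compat T o p <;>
    by_cases a4 : compat T o y <;> by_cases a5 : early o h p <;> by_cases a6 : early o h y <;>
    simp only [a1, a2, a3, a4, a5, a6, if_true, if_false, not_true, not_false_iff, and_true,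
      and_false, true_and, false_and, or_false, false_or, or_true, true_or, and_self, or_self,
      imp_self, true_imp_iff, false_imp_iff, iff_self, iff_false, iff_true, true_iff,
      false_iff] <;>
    linarith

lemma cert_one (hβ : Par β) (o : Obj k n) (h : List (Arc n)) (p : Arc n) :
    (if (inside o p → compat T o p) then mu β o h p else 0) ≤ 1 + sg T o h p := by
  have h3 := hβ.h9
  have h4 := hβ.h13
  unfold mu sg
  by_cases a1 : inside o p <;> by_cases a3 : compat T o p <;> by_cases a5 : early o h p <;>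
    simp only [a1, a3, a5, if_true, if_false, imp_self, true_imp_iff, false_imp_iff] <;>
    linarith

lemma alive_mono {o : Obj k n} {D D' : Finset (Arc n)} {f : Arc n → Arc n} (hD : D ⊆ D')
    (ha : alive T o D' f) : alive T o D f := ⟨fun a h => ha.1 a (hD h), ha.2⟩

lemma alive_del {o : Obj k n} {D : Finset (Arc n)} {f : Arc n → Arc n} (x : Fin n)
    (ha : alive T o D f) : alive T (del o x) D f := by
  have e : ∀ a : Arc n, inside (del o x) a → (compat T (del o x) a ↔ compat T o a) := by
    intro a hi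
    obtain ⟨h1, h2, -⟩ := (inside_del o x a).1 hi
    unfold compat del
    simp only [Function.update_of_ne h1, Function.update_of_ne h2]
  refine ⟨fun a h hi => (e a hi).2 (ha.1 a h ((inside_del o x a).1 hi).2.2), ?_⟩
  intro a h1 h2 h3
  exact (e _ h2).2 (ha.2 a ((inside_del o x a).1 h1).2.2 ((inside_del o x _).1 h2).2.2
    ((e a h1).1 h3))

lemma ww_le_del (hβ : 1 ≤ β) {h : List (Arc n)} {D : Finset (Arc n)} {f : Arc n → Arc n}
    {o : Obj k n} {x : Fin n} (hl : low o h x) :
    ww T β d h D f o ≤ (1 / (n : ℝ)) * β ^ d * ww T β d h D f (del o x) := by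
  have hβ0 : (0 : ℝ) ≤ β := by linarith
  by_cases hw : ww T β d h D f o = 0
  · rw [hw]
    have := ww_nonneg (T := T) (d := d) hβ h D f (del o x)
    positivity
  obtain ⟨ha, hw'⟩ := wg_of_ww hw
  have hv := vld_of_wg hw' x hl
  obtain ⟨b, z, hb, hz, -⟩ := hl
  unfold ww
  rw [if_pos ha, if_pos (alive_del x ha)]
  refine (wg_le_del hβ hb hz h).trans ?_
  apply mul_le_mul_of_nonneg_right _ (wg_nonneg hβ _ _)
  apply mul_le_mul_of_nonneg_left _ (by positivity)
  exact pow_le_pow_right₀ hβ hv

lemma bad_le' (w : Obj k n → ℝ) (hw0 : ∀ o, 0 ≤ w o) (c : ℝ) (hc0 : 0 ≤ c) (h : List (Arc n))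
    (hdel : ∀ o x, low o h x → w o ≤ c * w (del o x)) {p y : Arc n} (hp : p.1 ≠ p.2)
    (hy : y.1 ≠ y.2) (h1 : y ≠ p) (h2 : y ≠ p.swap) :
    ∑ o : Obj k n, (if bad o h p y then w o else 0) ≤
      4 * k * c * ∑ o : Obj k n, (if single o p y then w o else 0) := by
  set g : Obj k n → ℝ := fun o => if single o p y then w o else 0 with hgdef
  have hg : ∀ o, 0 ≤ g o := fun o => by
    simp only [hgdef]
    split_ifs
    · exact hw0 o
    · exact le_rfl
  let F : Fin n → Obj k n → ℝ := fun x o => if o.1 x ≠ none then g (del o x) else 0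
  have hF : ∀ x o, 0 ≤ F x o := fun x o => by
    simp only [F]
    split_ifs
    · exact hg _
    · exact le_rfl
  have key : ∀ (o : Obj k n) (x : Fin n), low o h x → single (del o x) p y →
      w o ≤ c * F x o := by
    intro o x hl hs
    have h3 := hdel o x hl
    obtain ⟨b, z, hb, hz, -⟩ := hl
    have e : F x o = w (del o x) := by simp [F, hb, hgdef, hs]
    rw [e]
    exact h3
  have main : ∀ o : Obj k n, (if bad o h p y then w o else 0) ≤
      c * (F p.1 o + F p.2 o + F y.1 o + F y.2 o) := by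
    intro o
    have f1 := hF p.1 o; have f2 := hF p.2 o; have f3 := hF y.1 o; have f4 := hF y.2 o
    split_ifs with hb
    · obtain ⟨i1, i2, he⟩ := hb
      obtain ⟨p1, p2⟩ := p
      obtain ⟨y1, y2⟩ := y
      simp only [ne_eq, Prod.mk.injEq, not_and, Prod.swap_prod_mk] at hp hy h1 h2 f1 f2 f3 f4 ⊢
      rcases he with he | he
      · by_cases q : p1 ≠ y1 ∧ p1 ≠ y2
        · have := key o p1 he.1 (Or.inr ⟨by rw [inside_del]; simp,
            by rw [inside_del]; exact ⟨q.1.symm, q.2.symm, i2⟩⟩)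
          nlinarith
        · have q' : p2 ≠ y1 ∧ p2 ≠ y2 := by
            constructor
            · rintro rfl; grind
            · rintro rfl; grind
          have := key o p2 he.2 (Or.inr ⟨by rw [inside_del]; simp,
            by rw [inside_del]; exact ⟨q'.1.symm, q'.2.symm, i2⟩⟩)
          nlinarith
      · by_cases q : y1 ≠ p1 ∧ y1 ≠ p2
        · have := key o y1 he.1 (Or.inl ⟨by rw [inside_del]; exact ⟨q.1.symm, q.2.symm, i1⟩,
            by rw [inside_del]; simp⟩)
          nlinarith
        · have q' : y2 ≠ p1 ∧ y2 ≠ p2 := by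
            constructor
            · rintro rfl; grind
            · rintro rfl; grind
          have := key o y2 he.2 (Or.inl ⟨by rw [inside_del]; exact ⟨q'.1.symm, q'.2.symm, i1⟩,
            by rw [inside_del]; simp⟩)
          nlinarith
    · positivity
  calc _ ≤ ∑ o : Obj k n, c * (F p.1 o + F p.2 o + F y.1 o + F y.2 o) :=
        sum_le_sum fun o _ => main o
    _ = c * (∑ o, F p.1 o + ∑ o, F p.2 o + ∑ o, F y.1 o + ∑ o, F y.2 o) := by
        rw [← mul_sum]; simp only [sum_add_distrib]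
    _ ≤ c * (k * ∑ o, g o + k * ∑ o, g o + k * ∑ o, g o + k * ∑ o, g o) := by
        apply mul_le_mul_of_nonneg_left _ hc0
        have a1 := sum_del_le p.1 g hg
        have a2 := sum_del_le p.2 g hg
        have a3 := sum_del_le y.1 g hg
        have a4 := sum_del_le y.2 g hg
        simp only [F]
        linarith
    _ = _ := by ring

lemma wg_two (hβ : 1 ≤ β) (o : Obj k n) (h : List (Arc n)) (p y : Arc n) :
    wg β d o (y :: p :: h) ≤ wg β d o h * (mu β o h p * mu β o h y) := by
  calc _ ≤ wg β d o (p :: h) * mu β o (p :: h) y := wg_cons_le hβ o _ _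
    _ ≤ wg β d o (p :: h) * mu β o h y :=
      mul_le_mul_of_nonneg_left (mu_cons_le hβ o h p y) (wg_nonneg hβ o _)
    _ ≤ wg β d o h * mu β o h p * mu β o h y :=
      mul_le_mul_of_nonneg_right (wg_cons_le hβ o _ _) (mu_nonneg hβ o h y)
    _ = _ := by ring

lemma rR_nonneg (hβ : 1 ≤ β) (o : Obj k n) (h : List (Arc n)) (p y : Arc n) :
    0 ≤ rR T β o h p y := by
  unfold rR
  split_ifs
  · exact mul_nonneg (mu_nonneg hβ _ _ _) (mu_nonneg hβ _ _ _)
  · exact le_rfl

lemma rZ_nonneg (hβ : 1 ≤ β) (o : Obj k n) (h : List (Arc n)) (p y : Arc n) :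
    0 ≤ rZ T β o h p y := by
  unfold rZ
  split_ifs
  · exact le_rfl
  · exact mul_nonneg (mu_nonneg hβ _ _ _) (mu_nonneg hβ _ _ _)

lemma ww_R (hβ : 1 ≤ β) (h : List (Arc n)) (D : Finset (Arc n)) (f : Arc n → Arc n)
    (p y : Arc n) (o : Obj k n) :
    ww T β d (y :: p :: h) (insert y (insert p D)) f o ≤ ww T β d h D f o * rR T β o h p y := by
  by_cases hw : ww T β d (y :: p :: h) (insert y (insert p D)) f o = 0
  · rw [hw]; exact mul_nonneg (ww_nonneg hβ _ _ _ _) (rR_nonneg hβ _ _ _ _)
  obtain ⟨ha, -⟩ := wg_of_ww hw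
  have ha' : alive T o D f :=
    alive_mono ((subset_insert _ _).trans (subset_insert _ _)) ha
  unfold ww rR
  rw [if_pos ha, if_pos ha', if_pos ⟨ha.1 p (by simp), ha.1 y (by simp)⟩]
  exact wg_two hβ o h p y

lemma ww_Z (hT : IsTournament T) (hβ : 1 ≤ β) (h : List (Arc n)) (D : Finset (Arc n))
    {f : Arc n → Arc n} {p y : Arc n} (hy : y.1 ≠ y.2) (f1 : f p = p) (f2 : f p.swap = p.swap)
    (f3 : f y = y) (f4 : f y.swap = y.swap) (o : Obj k n) :
    ww T β d (y :: p :: h) D (rsv f p y.swap) o ≤ ww T β d h D f o * rZ T β o h p y := by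
  by_cases hw : ww T β d (y :: p :: h) D (rsv f p y.swap) o = 0
  · rw [hw]; exact mul_nonneg (ww_nonneg hβ _ _ _ _) (rZ_nonneg hβ _ _ _ _)
  obtain ⟨ha, hw'⟩ := wg_of_ww hw
  have hg := good_of_wg hw'
  have ha' : alive T o D f := by
    refine ⟨ha.1, fun a i1 i2 c1 => ?_⟩
    by_cases q1 : a = p
    · rw [q1, f1, ← q1]; exact c1
    by_cases q2 : a = y.swap
    · rw [q2, f4, ← q2]; exact c1
    by_cases q3 : a = p.swap
    · rw [q3, f2, ← q3]; exact c1
    by_cases q4 : a = y.swap.swap
    · rw [Prod.swap_swap] at q4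
      rw [q4, f3, ← q4]; exact c1
    have e : rsv f p y.swap a = f a := by
      unfold rsv
      rw [if_neg q1, if_neg q2, if_neg q3, if_neg q4]
    have := ha.2 a i1
    rw [e] at this
    exact this i2 c1
  have hz : ¬ (inside o p ∧ inside o y ∧ (compat T o p ↔ compat T o y)) := by
    rintro ⟨i1, i2, e⟩
    have i3 := (inside_swap o y).2 i2
    have e1 : rsv f p y.swap p = y.swap := by unfold rsv; rw [if_pos rfl]
    have e2 : rsv f p y.swap y.swap = p := by
      unfold rsv
      split_ifs with q1 q2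
      · exact q1
      · rfl
      all_goals exact absurd rfl q2
    have t1 := ha.2 p i1
    have t2 := ha.2 y.swap i3
    rw [e1] at t1
    rw [e2] at t2
    have t3 := compat_swap hT hg hy i2
    have t4 := t1 i3
    have t5 := t2 i1
    tauto
  unfold ww rZ
  rw [if_pos ha, if_pos ha', if_neg hz]
  exact wg_two hβ o h p y

lemma PP_two (hT : IsTournament T) (hβ : Par β)
    (hpay : 20 * k * ((1 / (n : ℝ)) * β ^ d) ≤ 1 / 20000)
    (h : List (Arc n)) (D : Finset (Arc n)) {f : Arc n → Arc n} {p y : Arc n} (hp : p.1 ≠ p.2)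
    (hy : y.1 ≠ y.2) (h1 : y ≠ p) (h2 : y ≠ p.swap) (f1 : f p = p) (f2 : f p.swap = p.swap)
    (f3 : f y = y) (f4 : f y.swap = y.swap)
    (hs : sc T β d h D f p + sc T β d h D f y ≤ 0) :
    PP T β d (y :: p :: h) (insert y (insert p D)) f ≤ PP T β d h D f ∨
      PP T β d (y :: p :: h) D (rsv f p y.swap) ≤ PP T β d h D f := by
  have hβ0 : (0 : ℝ) ≤ β := by linarith [hβ.h1]
  have hb := bad_le' (ww T β d h D f) (ww_nonneg hβ.h1 h D f) ((1 / (n : ℝ)) * β ^ d)
    (by positivity) h (fun o x hl => ww_le_del hβ.h1 hl) hp hy h1 h2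
  have hG : 0 ≤ ∑ o : Obj k n, (if single o p y then ww T β d h D f o else 0) := by
    refine sum_nonneg fun o _ => ?_
    split_ifs
    · exact ww_nonneg hβ.h1 h D f o
    · exact le_rfl
  have step : ∀ o : Obj k n, ww T β d (y :: p :: h) (insert y (insert p D)) f o +
      1 / 8 * ww T β d (y :: p :: h) D (rsv f p y.swap) o ≤ 9 / 8 * ww T β d h D f o +
      ww T β d h D f o * sg T o h p + ww T β d h D f o * sg T o h y
      - 1 / 20000 * (if single o p y then ww T β d h D f o else 0)
      + 5 * (if bad o h p y then ww T β d h D f o else 0) := by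
    intro o
    have w0 := ww_nonneg (T := T) (d := d) hβ.h1 h D f o
    have a1 := ww_R (T := T) (d := d) hβ.h1 h D f p y o
    have a3 := ww_Z (d := d) hT hβ.h1 h D hy f1 f2 f3 f4 o
    have a2 := mul_le_mul_of_nonneg_left (cert (T := T) hβ o h p y) w0
    split_ifs at a2 ⊢ <;> nlinarith
  have tot := sum_le_sum fun o (_ : o ∈ (univ : Finset (Obj k n))) => step o
  simp only [sum_add_distrib, sum_sub_distrib, ← mul_sum] at tot
  unfold PP
  unfold sc at hs
  by_contra hc
  push Not at hc
  nlinarith [hc.1, hc.2]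

lemma PP_one (hβ : Par β) (h : List (Arc n)) (D : Finset (Arc n)) (f : Arc n → Arc n) {p : Arc n}
    (hs : sc T β d h D f p ≤ 0) : PP T β d (p :: h) (insert p D) f ≤ PP T β d h D f := by
  have step : ∀ o : Obj k n, ww T β d (p :: h) (insert p D) f o ≤ ww T β d h D f o +
      ww T β d h D f o * sg T o h p := by
    intro o
    have w0 := ww_nonneg (T := T) (d := d) hβ.h1 h D f o
    have a2 := mul_le_mul_of_nonneg_left (cert_one (T := T) hβ o h p) w0
    refine le_trans ?_ (a2.trans (le_of_eq (by ring)))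
    by_cases hw : ww T β d (p :: h) (insert p D) f o = 0
    · rw [hw]
      refine mul_nonneg w0 ?_
      split_ifs
      · exact mu_nonneg hβ.h1 _ _ _
      · exact le_rfl
    obtain ⟨ha, -⟩ := wg_of_ww hw
    have ha' : alive T o D f := alive_mono (subset_insert _ _) ha
    unfold ww
    rw [if_pos ha, if_pos ha', if_pos (ha.1 p (by simp))]
    exact wg_cons_le hβ.h1 o h p
  have tot := sum_le_sum fun o (_ : o ∈ (univ : Finset (Obj k n))) => step o
  simp only [sum_add_distrib] at tot
  unfold PP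
  unfold sc at hs
  linarith

lemma PP_mono (hβ : 1 ≤ β) (h : List (Arc n)) {D D' : Finset (Arc n)} (hD : D ⊆ D')
    (f : Arc n → Arc n) : PP T β d h D' f ≤ PP T β d h D f := by
  refine sum_le_sum fun o _ => ?_
  by_cases hw : ww T β d h D' f o = 0
  · rw [hw]; exact ww_nonneg hβ _ _ _ _
  obtain ⟨ha, -⟩ := wg_of_ww hw
  unfold ww
  rw [if_pos ha, if_pos (alive_mono hD ha)]

lemma ww_le_wg (hβ : 1 ≤ β) (h : List (Arc n)) (D : Finset (Arc n)) (f : Arc n → Arc n)
    (o : Obj k n) : ww T β d h D f o ≤ wg β d o h := by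
  unfold ww
  split_ifs
  · exact le_rfl
  · exact wg_nonneg hβ o h

lemma PP_nil (hβ : Par β) (D : Finset (Arc n)) (f : Arc n → Arc n) :
    PP T β d [] D f ≤ 2 * (2 ^ k * ((k : ℝ) + 1) ^ k) := by
  have h1 : PP T β d [] D f ≤ ∑ o : Obj k n, wg β d o ([] : List (Arc n)) :=
    sum_le_sum fun o _ => ww_le_wg hβ.h1 _ _ _ o
  have h2 := sum_wg_nil (β := β) (d := d) (k := k) (n := n)
  have : (0 : ℝ) ≤ 2 ^ k * ((k : ℝ) + 1) ^ k := by positivity
  linarith

lemma PP_first (hβ : Par β) (p : Arc n) (D : Finset (Arc n)) (f : Arc n → Arc n) :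
    PP T β d [p] D f ≤ 2 * (2 ^ k * ((k : ℝ) + 1) ^ k) := by
  have h1 : PP T β d [p] D f ≤ ∑ o : Obj k n, 2 * wg β d o ([] : List (Arc n)) := by
    refine sum_le_sum fun o _ => (ww_le_wg hβ.h1 _ _ _ o).trans ?_
    have a1 := wg_cons_le (d := d) hβ.h1 o [] p
    have a2 : mu β o [] p ≤ 2 := by
      have := hβ.h9
      have := hβ.h13
      unfold mu
      split_ifs <;> linarith
    have a3 := wg_nonneg (d := d) hβ.h1 o ([] : List (Arc n))
    nlinarith
  rw [← mul_sum] at h1
  have h2 := sum_wg_nil (β := β) (d := d) (k := k) (n := n)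
  linarith

end Pool.Agent.Lib.OG25
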